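import Pool.Agent.H165Z.Pvdw.Basic

/-! Piecewise syndetic subsets of a commutative ring, polynomial recurrence, compactness. -/

set_option autoImplicit false

namespace Pool.Agent.H32Z.Bal

open Polynomial

variable {R : Type} [CommRing R]

/-- piecewise syndetic subsets of the additive group -/
def Large (B : Set R) : Prop :=
  ∃ F : Finset R, ∀ S : Finset R, ∃ t, ∀ s ∈ S, ∃ f ∈ F, t + s + f ∈ B

theorem Large.mono {B B' : Set R} (h : Large B) (hs : ∀ x ∈ B, x ∈ B') : Large B' := by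
  obtain ⟨F, hF⟩ := h
  refine ⟨F, fun S => ?_⟩
  obtain ⟨t, ht⟩ := hF S
  exact ⟨t, fun s hs' => let ⟨f, h1, h2⟩ := ht s hs'; ⟨f, h1, hs _ h2⟩⟩

theorem Large.nonempty {B : Set R} (h : Large B) : ∃ x, x ∈ B := by
  obtain ⟨F, hF⟩ := h
  obtain ⟨t, ht⟩ := hF {0}
  obtain ⟨f, -, h2⟩ := ht 0 (Finset.mem_singleton_self _)
  exact ⟨_, h2⟩

theorem large_univ : Large (Set.univ : Set R) :=
  ⟨{0}, fun _ => ⟨0, fun _ _ => ⟨0, Finset.mem_singleton_self _, trivial⟩⟩⟩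

theorem Large.shift {B : Set R} (h : Large B) (y : R) : Large {x | x - y ∈ B} := by
  obtain ⟨F, hF⟩ := h
  refine ⟨F, fun S => ?_⟩
  obtain ⟨t, ht⟩ := hF S
  refine ⟨t + y, fun s hs => ?_⟩
  obtain ⟨f, h1, h2⟩ := ht s hs
  refine ⟨f, h1, ?_⟩
  show t + y + s + f - y ∈ B
  rwa [show t + y + s + f - y = t + s + f by ring]

theorem Large.split {B : Set R} (h : Large B) (p : R → Prop) :
    Large {x | x ∈ B ∧ p x} ∨ Large {x | x ∈ B ∧ ¬ p x} := by
  classical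
  obtain ⟨F, hF⟩ := h
  by_cases h1 : Large {x | x ∈ B ∧ p x}
  · exact Or.inl h1
  right
  unfold Large at h1
  push Not at h1
  obtain ⟨S₁, hS₁⟩ := h1 F
  refine ⟨(S₁ ×ˢ F).image fun z => z.1 + z.2, fun S => ?_⟩
  obtain ⟨t, ht⟩ := hF ((S ×ˢ S₁).image fun z => z.1 + z.2)
  refine ⟨t, fun s hs => ?_⟩
  obtain ⟨s₁, h2, h3⟩ := hS₁ (t + s)
  obtain ⟨f, h4, h5⟩ := ht (s + s₁) (Finset.mem_image.2 ⟨(s, s₁), Finset.mem_product.2 ⟨hs, h2⟩, rfl⟩)
  refine ⟨s₁ + f, Finset.mem_image.2 ⟨(s₁, f), Finset.mem_product.2 ⟨h2, h4⟩, rfl⟩, ?_⟩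
  have e : t + s + (s₁ + f) = t + (s + s₁) + f := by ring
  refine ⟨e ▸ h5, fun hp => h3 f h4 ⟨?_, ?_⟩⟩
  · rw [show t + s + s₁ + f = t + (s + s₁) + f by ring]; exact h5
  · rw [show t + s + s₁ + f = t + s + (s₁ + f) by ring]; exact hp

theorem Large.cover {ι : Type} (I : Finset ι) (p : ι → R → Prop) :
    ∀ B : Set R, Large B → (∀ x ∈ B, ∃ i ∈ I, p i x) → ∃ i ∈ I, Large {x | x ∈ B ∧ p i x} := by
  classical
  induction I using Finset.induction_on with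
  | empty =>
    intro B hB h
    obtain ⟨x, hx⟩ := hB.nonempty
    obtain ⟨i, hi, -⟩ := h x hx
    simp at hi
  | insert i I _ ih =>
    intro B hB h
    rcases hB.split (p i) with h1 | h1
    · exact ⟨i, Finset.mem_insert_self _ _, h1⟩
    · obtain ⟨j, hj, h2⟩ := ih _ h1 (by
        rintro x ⟨hx, hp⟩
        obtain ⟨j, hj, h3⟩ := h x hx
        rcases Finset.mem_insert.1 hj with rfl | hj
        · exact absurd h3 hp
        · exact ⟨j, hj, h3⟩)
      exact ⟨j, Finset.mem_insert_of_mem hj, h2.mono fun x hx => ⟨hx.1.1, hx.2⟩⟩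

theorem Large.color {B : Set R} (h : Large B) {κ : Type} [Finite κ] (c : R → κ) :
    ∃ k, Large {x | x ∈ B ∧ c x = k} := by
  have := Fintype.ofFinite κ
  obtain ⟨k, -, hk⟩ := Large.cover Finset.univ (fun k x => c x = k) B h
    (fun x _ => ⟨c x, Finset.mem_univ _, rfl⟩)
  exact ⟨k, hk⟩

theorem Large.recur0 {B : Set R} (h : Large B) (P : Finset R[X]) (hP : ∀ p ∈ P, p.coeff 0 = 0) :
    ∃ d : ℕ, 1 ≤ d ∧ Large {x | x ∈ B ∧ ∀ p ∈ P, x + p.eval (d : R) ∈ B} := by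
  classical
  obtain ⟨F, hF⟩ := h
  obtain ⟨S₀, M, hS⟩ := Pool.Agent.H165Z.Pvdw.vdw P hP (Option F)
  have h1 : Large {x | x ∈ B ∧ ∃ d ∈ Finset.Icc 1 M, ∀ p ∈ P, x + p.eval ((d : ℕ) : R) ∈ B} := by
    refine ⟨(S₀ ×ˢ F).image fun z => z.1 + z.2, fun S => ?_⟩
    obtain ⟨t, ht⟩ := hF ((S ×ˢ S₀).image fun z => z.1 + z.2)
    refine ⟨t, fun s hs => ?_⟩
    obtain ⟨a, ha, d, hd1, hd2, hd⟩ := hS fun r =>
      if h : ∃ f : F, t + s + r + f ∈ B then some h.choose else none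
    have h2 : ∃ f : F, t + s + a + f ∈ B := by
      obtain ⟨f, h3, h4⟩ := ht (s + a) (Finset.mem_image.2 ⟨(s, a), Finset.mem_product.2 ⟨hs, ha⟩, rfl⟩)
      exact ⟨⟨f, h3⟩, by rw [add_assoc t s a]; exact h4⟩
    refine ⟨a + h2.choose, Finset.mem_image.2 ⟨(a, h2.choose), Finset.mem_product.2
      ⟨ha, h2.choose.2⟩, rfl⟩, ?_, d, Finset.mem_Icc.2 ⟨hd1, hd2⟩, fun p hp => ?_⟩
    · rw [← add_assoc]; exact h2.choose_spec
    · have h3 := hd p hp
      rw [dif_pos h2] at h3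
      split_ifs at h3 with h4
      have h5 := h4.choose_spec
      rw [Option.some.inj h3] at h5
      rw [show t + s + (a + h2.choose) + p.eval (d : R) =
        t + s + (a + p.eval (d : R)) + h2.choose by ring]
      exact h5
  obtain ⟨d, hd, h2⟩ := Large.cover (Finset.Icc 1 M)
    (fun d x => ∀ p ∈ P, x + p.eval ((d : ℕ) : R) ∈ B) _ h1 (fun x hx => hx.2)
  exact ⟨d, (Finset.mem_Icc.1 hd).1, h2.mono fun x hx => ⟨hx.1.1, hx.2⟩⟩

/-- evaluation of an integer polynomial -/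
noncomputable def ev (x : R) (g : ℤ[X]) : R := eval₂ (Int.castRingHom R) x g

theorem ev_zero (x : R) : ev x 0 = 0 := eval₂_zero _ _
theorem ev_X (x : R) : ev x X = x := eval₂_X _ _
theorem ev_comp (x g : ℤ[X]) : ev x g = g.comp x := by
  rw [ev, Subsingleton.elim (Int.castRingHom ℤ[X]) C]; rfl
theorem ev_int (x : ℤ) (g : ℤ[X]) : ev x g = g.eval x := by
  rw [ev, Subsingleton.elim (Int.castRingHom ℤ) (RingHom.id ℤ)]; rfl

theorem exists_div_poly (g : ℤ[X]) (hg : g.coeff 0 = 0) {L n : R} (h : n ∣ L) :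
    ∃ p : R[X], p.coeff 0 = 0 ∧ ∀ d : R, n * p.eval d = ev (L * d) g := by
  obtain ⟨L', rfl⟩ := h
  refine ⟨C L' * X * eval₂ (Int.castRingHom _) (C (n * L') * X) (divX g), by simp, fun d => ?_⟩
  have h1 := hom_eval₂ (divX g) (Int.castRingHom _) (evalRingHom d) (C (n * L') * X)
  have h2 : g = X * divX g := by
    conv_lhs => rw [← X_mul_divX_add g, hg, C_0, add_zero]
  conv_rhs => rw [h2, ev, eval₂_mul, eval₂_X]
  simp only [coe_evalRingHom, eval_mul, eval_C, eval_X] at h1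
  rw [eval_mul, eval_mul, eval_C, eval_X, h1,
    Subsingleton.elim ((evalRingHom d).comp (Int.castRingHom R[X])) (Int.castRingHom R)]
  ring

/-- recurrence under the shifts `g i (L d) + g' i (L d) / n i` -/
theorem Large.recur {B : Set R} (h : Large B) {ι : Type} (I : Finset ι) (g g' : ι → ℤ[X])
    (n : ι → R) (L : R) (hI : ∀ i ∈ I, (g i).coeff 0 = 0 ∧ (g' i).coeff 0 = 0 ∧ n i ∣ L) :
    ∃ d : ℕ, 1 ≤ d ∧ ∃ σ : ι → R, (∀ i ∈ I, n i * σ i = ev (L * d) (g' i)) ∧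
      Large {x | x ∈ B ∧ ∀ i ∈ I, x + ev (L * d) (g i) + σ i ∈ B} := by
  classical
  have h1 : ∀ i ∈ I, ∃ p : R[X], p.coeff 0 = 0 ∧ ∀ d : R, 1 * p.eval d = ev (L * d) (g i) :=
    fun i hi => exists_div_poly _ (hI i hi).1 (one_dvd _)
  have h2 : ∀ i ∈ I, ∃ p : R[X], p.coeff 0 = 0 ∧ ∀ d : R, n i * p.eval d = ev (L * d) (g' i) :=
    fun i hi => exists_div_poly _ (hI i hi).2.1 (hI i hi).2.2
  choose! p hp hp' using h1
  choose! q hq hq' using h2
  obtain ⟨d, hd, h3⟩ := h.recur0 (I.image fun i => p i + q i) (by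
    intro r hr
    obtain ⟨i, hi, rfl⟩ := Finset.mem_image.1 hr
    rw [coeff_add, hp i hi, hq i hi, add_zero])
  refine ⟨d, hd, fun i => (q i).eval (d : R), fun i hi => hq' i hi _, h3.mono ?_⟩
  rintro x ⟨h4, h5⟩
  refine ⟨h4, fun i hi => ?_⟩
  have := h5 _ (Finset.mem_image_of_mem _ hi)
  rw [eval_add, ← add_assoc, ← one_mul (eval _ (p i)), hp' i hi] at this
  exact this

/-- compactness -/
theorem window {X κ : Type} [Finite κ] (G : Finset X → (X → κ) → Prop)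
    (hloc : ∀ A A' c c', A ⊆ A' → (∀ x ∈ A, c x = c' x) → G A c → G A' c')
    (h : ∀ c, ∃ A, G A c) : ∃ A, ∀ c, G A c := by
  classical
  let : TopologicalSpace κ := ⊥
  have : DiscreteTopology κ := ⟨rfl⟩
  choose A hA using h
  obtain ⟨T, hT⟩ := isCompact_univ.elim_finite_subcover
    (fun c : X → κ => {c' : X → κ | ∀ x ∈ A c, c x = c' x}) (fun c => by
      have : {c' : X → κ | ∀ x ∈ A c, c x = c' x} = ⋂ x ∈ A c, (fun c' : X → κ => c' x) ⁻¹' {c x} := by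
        ext c'
        simp [eq_comm]
      rw [this]
      exact isOpen_biInter_finset fun x _ => (isOpen_discrete _).preimage (continuous_apply x))
    (fun c _ => Set.mem_iUnion.2 ⟨c, fun _ _ => rfl⟩)
  refine ⟨T.biUnion A, fun c' => ?_⟩
  obtain ⟨c, hc, h1⟩ := Set.mem_iUnion₂.1 (hT (Set.mem_univ c'))
  exact hloc _ _ c c' (Finset.subset_biUnion_of_mem A hc) h1 (hA c)

end Pool.Agent.H32Z.Bal
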