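import Pool.Agent.H32Z.Bal.Sun

/-! Monochromatic `(a ∘ b) ∘ (c ∘ d)`. -/

set_option autoImplicit false

namespace Pool.Agent.H32Z.Bal

open Polynomial

/-- the eight expressions have one colour -/
def Pat {κ : Type} (χ : ℤ → κ) : Prop := ∃ a b c d : ℤ, 0 < a ∧ 0 < b ∧ 0 < c ∧ 0 < d ∧ ∃ k,
  χ (a + b + (c + d)) = k ∧ χ (a + b + c * d) = k ∧ χ (a * b + (c + d)) = k ∧
  χ (a * b + c * d) = k ∧ χ ((a + b) * (c + d)) = k ∧ χ ((a + b) * (c * d)) = k ∧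
  χ (a * b * (c + d)) = k ∧ χ (a * b * (c * d)) = k

/-- affine forms -/
def fm (ψ : ℤ × ℤ) (x : ℤ) : ℤ := ψ.1 * x + ψ.2

/-- new forms -/
noncomputable def nf (y : ℤ) (ψ : ℤ × ℤ) (e : ℤ[X] × ℤ[X]) : ℤ × ℤ :=
  (e.1.eval y * ψ.1, e.1.eval y * (ψ.1 * e.2.eval y + ψ.2))

theorem fm_nf (y : ℤ) (ψ : ℤ × ℤ) (e : ℤ[X] × ℤ[X]) (x : ℤ) :
    fm (nf y ψ e) x = e.1.eval y * fm ψ (x + e.2.eval y) := by
  simp only [fm, nf]; ring

theorem fm_add (ψ : ℤ × ℤ) (x s : ℤ) : fm ψ (x + s) = ψ.1 * s + fm ψ x := by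
  simp only [fm]; ring

theorem outer {κ : Type} [Finite κ] (χ : ℤ → κ) (hno : ¬ Pat χ) (D : ℕ) :
    ∀ (Ψ : Finset (ℤ × ℤ)) (Q N : Finset ℤ) (S : Set ℤ), Large S →
      (∀ ψ ∈ Ψ, 0 < ψ.1 ∧ ∀ x ∈ S, 0 < fm ψ x) → (∀ r ∈ Q, 0 < r) → (∀ n ∈ N, 0 < n) →
      ∃ F : ℤ × ℤ → Fin D → κ, (∀ ψ ∈ Ψ, Function.Injective (F ψ)) ∧ ∀ j, ∀ r ∈ Q,
        ∃ x a b u π, 0 < a ∧ 0 < b ∧ a + b = r * u ∧ a * b = r * π ∧ x ∈ S ∧
          (∀ ψ ∈ Ψ, χ (u * fm ψ x) = F ψ j ∧ χ (π * fm ψ x) = F ψ j) ∧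
          ∀ n ∈ N, ∃ s t, n * s = a + b ∧ n * t = a * b ∧ x + s ∈ S ∧ x + t ∈ S := by
  classical
  induction D with
  | zero =>
    intro Ψ Q N S _ _ _ _
    exact ⟨fun _ j => j.elim0, fun _ _ j => j.elim0, fun j => j.elim0⟩
  | succ D ih =>
    intro Ψ Q N S hS hΨ hQ hN
    obtain ⟨A, hA1, hA2⟩ := node (Ψ → κ × (Fin D → κ)) Q (insert 1 (Ψ.image Prod.fst)) hQ (by
      intro n hn
      rcases Finset.mem_insert.1 hn with rfl | hn
      · exact one_pos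
      · obtain ⟨ψ, h, rfl⟩ := Finset.mem_image.1 hn
        exact (hΨ ψ h).1)
    obtain ⟨d, hd, σ, h1, h2⟩ := hS.recur (A ×ˢ insert 0 Q ×ˢ insert 1 N) (fun i => i.1.2)
      (fun i => C i.2.1 * i.1.1) (fun i => i.2.2) (∏ n ∈ N, n) (by
        rintro ⟨e, r, n⟩ hi
        simp only [Finset.mem_product] at hi
        refine ⟨(hA1 e hi.1).2.2, by simp [(hA1 e hi.1).2.1], ?_⟩
        rcases Finset.mem_insert.1 hi.2.2 with rfl | hn
        · exact one_dvd _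
        · exact Finset.dvd_prod_of_mem _ hn)
    simp only [ev_int, eval_mul, eval_C] at h1 h2
    have hy : 1 ≤ (∏ n ∈ N, n) * (d : ℤ) :=
      mul_pos (Finset.prod_pos hN) (by exact_mod_cast hd)
    generalize (∏ n ∈ N, n) * (d : ℤ) = y at h1 h2 hy
    set Ψ' := (Ψ ×ˢ A).image fun z => nf y z.1 z.2 with hΨ'
    have hmem : ∀ ψ ∈ Ψ, ∀ e ∈ A, nf y ψ e ∈ Ψ' := fun ψ h e h' =>
      Finset.mem_image.2 ⟨(ψ, e), Finset.mem_product.2 ⟨h, h'⟩, rfl⟩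
    obtain ⟨V, hV⟩ := h2.color fun x => fun w : Ψ' => χ (fm w x)
    generalize hS' : {x | x ∈ {x | x ∈ S ∧ ∀ i ∈ A ×ˢ insert 0 Q ×ˢ insert 1 N,
      x + eval y i.1.2 + σ i ∈ S} ∧ (fun w : Ψ' => χ (fm w x)) = V} = S' at hV
    obtain ⟨x₀, hx₀⟩ := hV.nonempty
    have hK : ∀ w ∈ Ψ', ∀ x ∈ S', χ (fm w x) = χ (fm w x₀) := by
      intro w hw x hx
      rw [← hS'] at hx hx₀
      exact (congrFun hx.2 ⟨w, hw⟩).trans (congrFun hx₀.2 ⟨w, hw⟩).symm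
    have hsh : ∀ e ∈ A, ∀ r ∈ Q, ∀ n ∈ N, ∃ s, n * s = r * e.1.eval y ∧
        ∀ x ∈ S', x + e.2.eval y + s ∈ S := by
      intro e he r hr n hn
      have hi : (e, r, n) ∈ A ×ˢ insert 0 Q ×ˢ insert 1 N := by
        simp only [Finset.mem_product]
        exact ⟨he, Finset.mem_insert_of_mem hr, Finset.mem_insert_of_mem hn⟩
      refine ⟨σ (e, r, n), h1 _ hi, fun x hx => ?_⟩
      rw [← hS'] at hx
      exact hx.1.2 _ hi
    have hsh0 : ∀ e ∈ A, ∀ x ∈ S', x + e.2.eval y ∈ S := by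
      intro e he x hx
      have hi : (e, (0 : ℤ), (1 : ℤ)) ∈ A ×ˢ insert 0 Q ×ˢ insert 1 N := by
        simp only [Finset.mem_product]
        exact ⟨he, Finset.mem_insert_self _ _, Finset.mem_insert_self _ _⟩
      have h3 := h1 _ hi
      simp only [one_mul, zero_mul] at h3
      rw [← hS'] at hx
      have h4 := hx.1.2 _ hi
      rwa [h3, add_zero] at h4
    have hpos : ∀ w ∈ Ψ', 0 < w.1 ∧ ∀ x ∈ S', 0 < fm w x := by
      intro w hw
      obtain ⟨⟨ψ, e⟩, h3, rfl⟩ := Finset.mem_image.1 hw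
      obtain ⟨h3, h4⟩ := Finset.mem_product.1 h3
      refine ⟨mul_pos ((hA1 e h4).1 y hy) (hΨ ψ h3).1, fun x hx => ?_⟩
      rw [fm_nf]
      exact mul_pos ((hA1 e h4).1 y hy) ((hΨ ψ h3).2 _ (hsh0 e h4 x hx))
    obtain ⟨F, hF1, hF2⟩ := ih Ψ' (insert 1 ((Q ×ˢ A).image fun z => z.1 * z.2.1.eval y))
      (N ∪ Ψ'.image Prod.fst) S' hV hpos (by
        intro r hr
        rcases Finset.mem_insert.1 hr with rfl | hr
        · exact one_pos
        · obtain ⟨⟨r, e⟩, h3, rfl⟩ := Finset.mem_image.1 hr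
          obtain ⟨h3, h4⟩ := Finset.mem_product.1 h3
          exact mul_pos (hQ r h3) ((hA1 e h4).1 y hy)) (by
        intro n hn
        rcases Finset.mem_union.1 hn with hn | hn
        · exact hN n hn
        · obtain ⟨w, h3, rfl⟩ := Finset.mem_image.1 hn
          exact (hpos w h3).1)
    obtain ⟨ν, c, τ', hc, hcA, τ, h3, h4⟩ :=
      hA2 fun e => fun ψ : Ψ => (χ (fm (nf y ψ e) x₀), F (nf y ψ e))
    have h1m : (1 : ℤ) ∈ insert 1 (Ψ.image Prod.fst) := Finset.mem_insert_self _ _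
    refine ⟨fun ψ => Fin.cons (χ (fm (nf y ψ (c * ν, τ')) x₀)) (F (nf y ψ (c * ν, τ'))),
      fun ψ hψ => Fin.cons_injective_iff.2 ⟨?_, hF1 _ (hmem ψ hψ _ hcA)⟩, fun j r hr => ?_⟩
    · rintro ⟨j, hj⟩
      apply hno
      obtain ⟨h5, h6, h7⟩ := h3 ψ.1 (Finset.mem_insert_of_mem (Finset.mem_image_of_mem _ hψ))
      have h8 := congrFun h7 ⟨ψ, hψ⟩
      simp only [Prod.mk.injEq] at h8
      obtain ⟨x, a, b, u, π, ha, hb, hu, hπ, hx, h9, h10⟩ := hF2 j 1 (Finset.mem_insert_self _ _)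
      rw [one_mul] at hu hπ
      subst hu hπ
      have m1 := hmem ψ hψ _ h5
      have m2 := hmem ψ hψ _ hcA
      have e1 : fm (nf y ψ (ν, τ ψ.1)) x = c.eval y + ν.eval y * fm ψ (x + τ'.eval y) := by
        rw [fm_nf, ← h6]
        simp only [fm, eval_mul, eval_sub, eval_C]
        ring
      have e2 : fm (nf y ψ (c * ν, τ')) x = c.eval y * (ν.eval y * fm ψ (x + τ'.eval y)) := by
        rw [fm_nf]
        simp only [eval_mul]
        ring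
      obtain ⟨s, t, a1, a2, a3, a4⟩ := h10 _
        (Finset.mem_union_right _ (Finset.mem_image_of_mem Prod.fst m1))
      obtain ⟨s', t', b1, b2, b3, b4⟩ := h10 _
        (Finset.mem_union_right _ (Finset.mem_image_of_mem Prod.fst m2))
      refine ⟨a, b, c.eval y, ν.eval y * fm ψ (x + τ'.eval y), ha, hb, hc y hy,
        mul_pos ((hA1 _ h5).1 y hy) ((hΨ ψ hψ).2 _ (hsh0 _ hcA x hx)),
        χ (fm (nf y ψ (c * ν, τ')) x₀), ?_, ?_, ?_, ?_, ?_, ?_, ?_, ?_⟩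
      · rw [← e1, ← a1, ← fm_add, hK _ m1 _ a3, h8.1]
      · rw [← e2, ← b1, ← fm_add, hK _ m2 _ b3]
      · rw [← e1, ← a2, ← fm_add, hK _ m1 _ a4, h8.1]
      · rw [← e2, ← b2, ← fm_add, hK _ m2 _ b4]
      · rw [← e1, (h9 _ m1).1, h8.2, hj]
      · rw [← e2, (h9 _ m2).1, hj]
      · rw [← e1, (h9 _ m1).2, h8.2, hj]
      · rw [← e2, (h9 _ m2).2, hj]
    obtain ⟨h5, -, h7⟩ := h3 1 h1m
    refine Fin.cases ?_ (fun j => ?_) j
    · obtain ⟨a, b, π, h8, h9, h10, h11, h12⟩ := h4 r hr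
      obtain ⟨h12, h13⟩ := h12 1 h1m
      have e1 := congrArg (eval y) h10
      have e2 := congrArg (eval y) h11
      simp only [eval_add, eval_mul, eval_C] at e1 e2
      refine ⟨x₀ + (τ 1).eval y, a.eval y, b.eval y, ν.eval y, π.eval y, h8 y hy, h9 y hy, e1, e2,
        hsh0 _ h5 _ hx₀, fun ψ hψ => ⟨?_, ?_⟩, fun n hn => ?_⟩
      · have := congrArg Prod.fst (congrFun h7 ⟨ψ, hψ⟩)
        simp only [Fin.cons_zero] at this ⊢
        rw [← this, fm_nf]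
      · have := congrArg Prod.fst (congrFun h13 ⟨ψ, hψ⟩)
        simp only [Fin.cons_zero] at this ⊢
        rw [← this, fm_nf]
      · obtain ⟨s, a1, a2⟩ := hsh _ h5 r hr n hn
        obtain ⟨t, b1, b2⟩ := hsh _ h12 r hr n hn
        exact ⟨s, t, by rw [a1, e1], by rw [b1, e2], a2 _ hx₀, b2 _ hx₀⟩
    · obtain ⟨x, a, b, u, π, ha, hb, hu, hπ, hx, h9, h10⟩ := hF2 j (r * ν.eval y)
        (Finset.mem_insert_of_mem (Finset.mem_image.2
          ⟨(r, (ν, τ 1)), Finset.mem_product.2 ⟨hr, h5⟩, rfl⟩))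
      refine ⟨x + (τ 1).eval y, a, b, u * ν.eval y, π * ν.eval y, ha, hb, by rw [hu]; ring,
        by rw [hπ]; ring, hsh0 _ h5 _ hx, fun ψ hψ => ?_, fun n hn => ?_⟩
      · have := congrArg Prod.snd (congrFun h7 ⟨ψ, hψ⟩)
        simp only [Fin.cons_succ] at this ⊢
        have h11 := h9 _ (hmem ψ hψ _ h5)
        rw [fm_nf] at h11
        rw [← this, mul_assoc, mul_assoc]
        exact h11
      · obtain ⟨s, t, a1, a2, a3, a4⟩ := h10 n (Finset.mem_union_left _ hn)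
        refine ⟨s, t, a1, a2, ?_, ?_⟩
        · rw [add_right_comm]; exact hsh0 _ h5 _ a3
        · rw [add_right_comm]; exact hsh0 _ h5 _ a4

theorem pat {κ : Type} [Finite κ] (χ : ℤ → κ) : Pat χ := by
  classical
  have := Fintype.ofFinite κ
  by_contra hno
  have hS : Large {x : ℤ | 0 < x} := by
    refine ⟨{0}, fun S => ⟨1 + ∑ s ∈ S, |s|, fun s hs => ⟨0, Finset.mem_singleton_self _, ?_⟩⟩⟩
    have h1 : |s| ≤ ∑ s ∈ S, |s| :=
      Finset.single_le_sum (f := fun s : ℤ => |s|) (fun _ _ => abs_nonneg _) hs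
    have h2 := neg_abs_le s
    show 0 < 1 + ∑ s ∈ S, |s| + s + 0
    omega
  obtain ⟨F, hF, -⟩ := outer χ hno (Fintype.card κ + 1) {(1, 0)} ∅ ∅ _ hS (by
    intro ψ hψ
    rw [Finset.mem_singleton] at hψ
    subst hψ
    exact ⟨one_pos, fun x hx => by simpa [fm] using hx⟩) (by simp) (by simp)
  have := Fintype.card_le_of_injective _ (hF _ (Finset.mem_singleton_self _))
  simp at this

end Pool.Agent.H32Z.Bal
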