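import Pool.Agent.H32Z.Bal.Large

/-! The sunflower lemma and the node lemma for colourings of integer polynomials. -/

set_option autoImplicit false

namespace Pool.Agent.H32Z.Bal

open Polynomial

/-- polynomials that are positive at positive integers -/
def Pos (g : ℤ[X]) : Prop := ∀ y : ℤ, 1 ≤ y → 0 < g.eval y

theorem Pos.mul {g h : ℤ[X]} (hg : Pos g) (hh : Pos h) : Pos (g * h) := fun y hy => by
  rw [eval_mul]; exact mul_pos (hg y hy) (hh y hy)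
theorem Pos.add {g h : ℤ[X]} (hg : Pos g) (hh : Pos h) : Pos (g + h) := fun y hy => by
  rw [eval_add]; exact add_pos (hg y hy) (hh y hy)
theorem pos_X : Pos X := fun y hy => by rw [eval_X]; omega
theorem pos_one : Pos 1 := fun y hy => by simp
theorem pos_C {r : ℤ} (h : 0 < r) : Pos (C r) := fun y _ => by rwa [eval_C]
theorem pos_nat {d : ℕ} (h : 1 ≤ d) : Pos (d : ℤ[X]) := fun y _ => by
  rw [eval_natCast]; omega
theorem Pos.comp {g h : ℤ[X]} (hg : Pos g) (hh : Pos h) : Pos (g.comp h) := fun y hy => by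
  rw [eval_comp]; exact hg _ (hh y hy)
theorem Pos.ne_zero {g : ℤ[X]} (hg : Pos g) : g ≠ 0 := by
  rintro rfl
  simpa using hg 1 le_rfl
theorem Pos.of_mul {g h : ℤ[X]} (hg : Pos g) (hh : Pos (g * h)) : Pos h := fun y hy => by
  have := hh y hy
  rw [eval_mul] at this
  exact (pos_iff_pos_of_mul_pos this).1 (hg y hy)
theorem Pos.prod {ι : Type} (s : Finset ι) (f : ι → ℤ[X]) (h : ∀ i ∈ s, Pos (f i)) :
    Pos (∏ i ∈ s, f i) :=
  Finset.prod_induction f Pos (fun _ _ => Pos.mul) pos_one h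

theorem large_pos : Large {g : ℤ[X] | Pos g} := by
  refine ⟨{0}, fun S => ⟨1 + ∑ s ∈ S, s ^ 2, fun s hs => ⟨0, Finset.mem_singleton_self _, ?_⟩⟩⟩
  intro y _
  rw [add_zero, eval_add, eval_add, eval_finsetSum, eval_one]
  have h1 : (s ^ 2).eval y ≤ ∑ i ∈ S, (i ^ 2).eval y :=
    Finset.single_le_sum (f := fun i : ℤ[X] => (i ^ 2).eval y)
      (fun i _ => by rw [eval_pow]; positivity) hs
  rw [eval_pow] at h1
  nlinarith [sq_nonneg (2 * s.eval y + 1)]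

section sun
variable {κ : Type} (β : ℤ[X] → κ)

/-- colours that return to `B` -/
def Ret (B : Set ℤ[X]) (k : κ) : Prop :=
  ∀ F : Finset ℤ[X], (∀ w ∈ F, Pos w) → ∃ (Y : ℤ[X]) (y : ℤ[X] → ℤ[X]),
    (∀ w ∈ F, Pos (y w) ∧ w * y w = Y) ∧
      Large {x | x ∈ B ∧ (∀ w ∈ F, x + y w ∈ B) ∧ β (Y * x) = k}

theorem Ret.mono {B B' : Set ℤ[X]} {k : κ} (h : Ret β B k) (hs : ∀ x ∈ B, x ∈ B') : Ret β B' k := by
  intro F hF
  obtain ⟨Y, y, h1, h2⟩ := h F hF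
  exact ⟨Y, y, h1, h2.mono fun x hx => ⟨hs _ hx.1, fun w hw => hs _ (hx.2.1 w hw), hx.2.2⟩⟩

theorem ret_exists [Finite κ] {B : Set ℤ[X]} (hB : Large B) : ∃ k, Ret β B k := by
  classical
  have := Fintype.ofFinite κ
  by_contra h
  push Not at h
  unfold Ret at h
  push Not at h
  choose F hF1 hF2 using h
  set G := Finset.univ.biUnion F with hG
  have hGp : ∀ w ∈ G, Pos w := by
    intro w hw
    obtain ⟨k, -, hk⟩ := Finset.mem_biUnion.1 hw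
    exact hF1 k w hk
  obtain ⟨d, hd, σ, h1, h2⟩ := hB.recur G (fun _ => 0) (fun _ => X) id (∏ w ∈ G, w)
    (fun w hw => ⟨by simp, by simp, Finset.dvd_prod_of_mem _ hw⟩)
  simp only [ev_X, ev_zero, add_zero, id] at h1 h2
  obtain ⟨k, hk⟩ := h2.color fun x => β ((∏ w ∈ G, w) * d * x)
  have hsub : ∀ w ∈ F k, w ∈ G := fun w hw => Finset.mem_biUnion.2 ⟨k, Finset.mem_univ _, hw⟩
  refine hF2 k ((∏ w ∈ G, w) * d) σ (fun w hw => ⟨?_, h1 w (hsub w hw)⟩)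
    (hk.mono fun x hx => ⟨hx.1.1, fun w hw => hx.1.2 w (hsub w hw), hx.2⟩)
  refine (hF1 k w hw).of_mul ?_
  rw [h1 w (hsub w hw)]
  exact (Pos.prod G id hGp).mul (pos_nat hd)

theorem ret_stable [Finite κ] : ∃ (B : Set ℤ[X]) (k : κ), Large B ∧ (∀ x ∈ B, Pos x) ∧
    ∀ E : Set ℤ[X], Large E → (∀ x ∈ E, x ∈ B) → Ret β E k := by
  classical
  have := Fintype.ofFinite κ
  have hex : ∃ m : ℕ, ∃ B : Set ℤ[X], Large B ∧ (∀ x ∈ B, Pos x) ∧
      (Finset.univ.filter (Ret β B)).card = m := ⟨_, _, large_pos, fun _ h => h, rfl⟩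
  obtain ⟨B, h1, h2, h3⟩ := Nat.find_spec hex
  obtain ⟨k, hk⟩ := ret_exists β h1
  refine ⟨B, k, h1, h2, fun E hE hs => ?_⟩
  have h4 : Finset.univ.filter (Ret β E) ⊆ Finset.univ.filter (Ret β B) := by
    intro j hj
    rw [Finset.mem_filter] at hj ⊢
    exact ⟨hj.1, hj.2.mono β hs⟩
  have h5 := Nat.find_min' hex ⟨E, hE, fun x hx => h2 x (hs x hx), rfl⟩
  have h6 := Finset.eq_of_subset_of_card_le h4 (h3 ▸ h5)
  have h7 : k ∈ Finset.univ.filter (Ret β B) := Finset.mem_filter.2 ⟨Finset.mem_univ _, hk⟩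
  rw [← h6] at h7
  exact (Finset.mem_filter.1 h7).2

theorem sun0 [Finite κ] (Q : Finset ℤ) (hQ : ∀ r ∈ Q, 0 < r) : ∃ ν, Pos ν ∧ ν.coeff 0 = 0 ∧
    ∀ r ∈ Q, ∃ a b π, Pos a ∧ Pos b ∧ Pos π ∧ π.coeff 0 = 0 ∧ a + b = C r * ν ∧ a * b = C r * π ∧
      β π = β ν := by
  classical
  obtain ⟨B, k, hB1, hB2, hB3⟩ := ret_stable β
  obtain ⟨z, y, h1, h2⟩ := hB3 B hB1 (fun _ h => h) {X} (by simpa using pos_X)
  obtain ⟨h3, h4⟩ := h1 X (Finset.mem_singleton_self _)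
  have hz : Pos z := h4 ▸ pos_X.mul h3
  have hz0 : z.coeff 0 = 0 := by rw [← h4]; simp
  have key : ∃ E : Set ℤ[X], Large E ∧ ∀ x ∈ E, (x ∈ B ∧ β (z * x) = k) ∧
      ∀ r ∈ Q, ∃ a b π, Pos a ∧ Pos b ∧ Pos π ∧ π.coeff 0 = 0 ∧ a + b = C r * (z * x) ∧
        a * b = C r * π ∧ β π = k := by
    induction Q using Finset.induction_on with
    | empty => exact ⟨_, h2, fun x hx => ⟨⟨hx.1, hx.2.2⟩, by simp⟩⟩
    | insert r Q _ ih =>
      obtain ⟨E, hE1, hE2⟩ := ih fun r hr => hQ r (Finset.mem_insert_of_mem hr)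
      have hr := pos_C (hQ r (Finset.mem_insert_self _ _))
      obtain ⟨Y, y', h5, h6⟩ := hB3 E hE1 (fun x hx => (hE2 x hx).1.1) {C r * z * z}
        (by simpa using (hr.mul hz).mul hz)
      obtain ⟨h7, h8⟩ := h5 _ (Finset.mem_singleton_self _)
      refine ⟨_, h6.shift (y' (C r * z * z)), fun x hx => ?_⟩
      obtain ⟨h9, h10, h11⟩ := hx
      have h12 := h10 _ (Finset.mem_singleton_self _)
      rw [sub_add_cancel] at h12
      refine ⟨(hE2 x h12).1, fun s hs => ?_⟩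
      rcases Finset.mem_insert.1 hs with rfl | hs
      · have h13 := hB2 _ (hE2 _ h9).1.1
        refine ⟨C s * z * y' (C s * z * z), C s * z * (x - y' (C s * z * z)),
          Y * (x - y' (C s * z * z)), (hr.mul hz).mul h7, (hr.mul hz).mul h13,
          (h8 ▸ ((hr.mul hz).mul hz).mul h7).mul h13, ?_, by ring, ?_, h11⟩
        · rw [← h8]; simp [hz0]
        · rw [← h8]; ring
      · exact (hE2 x h12).2 s hs
  obtain ⟨E, hE1, hE2⟩ := key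
  obtain ⟨x, hx⟩ := hE1.nonempty
  obtain ⟨⟨h5, h6⟩, h7⟩ := hE2 x hx
  exact ⟨z * x, hz.mul (hB2 x h5), by simp [hz0], h6 ▸ h7⟩

end sun

theorem sun (κ : Type) [Finite κ] (Q : Finset ℤ) (hQ : ∀ r ∈ Q, 0 < r) : ∃ A : Finset ℤ[X],
    (∀ g ∈ A, Pos g ∧ g.coeff 0 = 0) ∧ ∀ β : ℤ[X] → κ, ∃ ν ∈ A,
      ∀ r ∈ Q, ∃ a b, ∃ π ∈ A, Pos a ∧ Pos b ∧ a + b = C r * ν ∧ a * b = C r * π ∧ β π = β ν := by
  classical
  obtain ⟨A, hA⟩ := window (κ := κ) (fun (A : Finset ℤ[X]) β => ∃ ν ∈ A, Pos ν ∧ ν.coeff 0 = 0 ∧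
    ∀ r ∈ Q, ∃ a b, ∃ π ∈ A, Pos a ∧ Pos b ∧ Pos π ∧ π.coeff 0 = 0 ∧ a + b = C r * ν ∧
      a * b = C r * π ∧ β π = β ν) (by
      rintro A A' c c' hs hc ⟨ν, h1, h2, h3, h4⟩
      refine ⟨ν, hs h1, h2, h3, fun r hr => ?_⟩
      obtain ⟨a, b, π, h5, h6, h7, h8, h9, h10, h11, h12⟩ := h4 r hr
      exact ⟨a, b, π, hs h5, h6, h7, h8, h9, h10, h11, by rw [← hc _ h5, ← hc _ h1, h12]⟩) (by
      intro β
      obtain ⟨ν, h1, h2, h3⟩ := sun0 β Q hQ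
      choose! a b π h using h3
      exact ⟨insert ν (Q.image π), ν, Finset.mem_insert_self _ _, h1, h2, fun r hr =>
        ⟨a r, b r, π r, Finset.mem_insert_of_mem (Finset.mem_image_of_mem _ hr), h r hr⟩⟩)
  refine ⟨A.filter fun g => Pos g ∧ g.coeff 0 = 0, fun g hg => (Finset.mem_filter.1 hg).2,
    fun β => ?_⟩
  obtain ⟨ν, h1, h2, h3, h4⟩ := hA β
  refine ⟨ν, Finset.mem_filter.2 ⟨h1, h2, h3⟩, fun r hr => ?_⟩
  obtain ⟨a, b, π, h5, h6, h7, h8, h9, h10, h11, h12⟩ := h4 r hr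
  exact ⟨a, b, π, Finset.mem_filter.2 ⟨h5, h8, h9⟩, h6, h7, h10, h11, h12⟩

theorem node0 {κ : Type} [Finite κ] (Φ : ℤ[X] × ℤ[X] → κ) (Q N : Finset ℤ) (hQ : ∀ r ∈ Q, 0 < r)
    (hN : ∀ n ∈ N, 0 < n) : ∃ ν c τ', Pos ν ∧ ν.coeff 0 = 0 ∧ Pos c ∧ τ'.coeff 0 = 0 ∧
      ∃ τ : ℤ → ℤ[X], (∀ n ∈ N, (τ n).coeff 0 = 0 ∧ ν * C n * (τ n - τ') = c ∧
        Φ (ν, τ n) = Φ (c * ν, τ')) ∧
      ∀ r ∈ Q, ∃ a b π, Pos a ∧ Pos b ∧ Pos π ∧ π.coeff 0 = 0 ∧ a + b = C r * ν ∧ a * b = C r * π ∧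
        ∀ n ∈ N, Φ (π, τ n) = Φ (c * ν, τ') := by
  classical
  have := Fintype.ofFinite κ
  obtain ⟨A, hA1, hA2⟩ := sun κ Q hQ
  by_contra hcon
  have key : ∀ l : ℕ, ∃ B : Set ℤ[X], Large B ∧ ∃ T : Finset κ, T.card = l ∧ ∀ k ∈ T,
      ∃ ν, Pos ν ∧ ν.coeff 0 = 0 ∧ (∀ x ∈ B, Φ (ν, X * x) = k) ∧
      ∀ r ∈ Q, ∃ a b π, Pos a ∧ Pos b ∧ Pos π ∧ π.coeff 0 = 0 ∧ a + b = C r * ν ∧ a * b = C r * π ∧
        ∀ x ∈ B, Φ (π, X * x) = k := by
    intro l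
    induction l with
    | zero => exact ⟨_, large_univ, ∅, rfl, by simp⟩
    | succ l ih =>
      obtain ⟨B, hB, T, hT, h⟩ := ih
      choose! ν hν1 hν2 hν3 hν4 using h
      set L : ℤ[X] := X * (∏ n ∈ N, C n) * ∏ k ∈ T, (ν k * ν k) with hL
      have hLp : Pos L := (pos_X.mul (Pos.prod _ _ fun n hn => pos_C (hN n hn))).mul
        (Pos.prod _ _ fun k hk => (hν1 k hk).mul (hν1 k hk))
      obtain ⟨d, hd, σ, h1, h2⟩ := hB.recur (A ×ˢ T ×ˢ N) (fun _ => 0) (fun i => i.1)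
        (fun i => X * C i.2.2 * (ν i.2.1 * ν i.2.1)) L (by
          rintro ⟨g, k, n⟩ hi
          simp only [Finset.mem_product] at hi
          exact ⟨by simp, (hA1 g hi.1).2, mul_dvd_mul (mul_dvd_mul_left _
            (Finset.dvd_prod_of_mem _ hi.2.2))
            (Finset.dvd_prod_of_mem (fun k => ν k * ν k) hi.2.1)⟩)
      simp only [ev_comp, zero_comp, add_zero] at h1 h2
      have hLd : Pos (L * d) := hLp.mul (pos_nat hd)
      have hc0 : ∀ g ∈ A, (g.comp (L * d)).coeff 0 = 0 := by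
        intro g hg
        rw [coeff_zero_eq_eval_zero, eval_comp, hL]
        simp only [eval_mul, eval_X, zero_mul]
        rw [← coeff_zero_eq_eval_zero, (hA1 g hg).2]
      obtain ⟨V, hV⟩ := h2.color fun x => fun g : A => Φ (g.1.comp (L * d), X * x)
      obtain ⟨x₀, hx₀⟩ := hV.nonempty
      obtain ⟨μ, hμ, h3⟩ := hA2 fun g => Φ (g.comp (L * d), X * x₀)
      have hsame : ∀ g ∈ A, ∀ x ∈ {x | x ∈ {x | x ∈ B ∧ ∀ i ∈ A ×ˢ T ×ˢ N, x + σ i ∈ B} ∧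
          (fun g : A => Φ (g.1.comp (L * d), X * x)) = V},
          Φ (g.comp (L * d), X * x) = Φ (g.comp (L * d), X * x₀) := fun g hg x hx =>
        (congrFun hx.2 ⟨g, hg⟩).trans (congrFun hx₀.2 ⟨g, hg⟩).symm
      by_cases hk : Φ (μ.comp (L * d), X * x₀) ∈ T
      · exfalso
        apply hcon
        set k := Φ (μ.comp (L * d), X * x₀) with hkdef
        obtain ⟨c, hc⟩ : ν k ∣ μ.comp (L * d) := by
          have h4 : L ∣ μ.comp (L * d) := by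
            obtain ⟨p, -, hp⟩ := exists_div_poly μ (hA1 μ hμ).2 (dvd_refl L)
            exact ⟨_, by rw [← ev_comp, ← hp]⟩
          exact ((Dvd.intro _ rfl).trans ((Finset.dvd_prod_of_mem (fun k => ν k * ν k) hk).trans
            (Dvd.intro_left _ rfl))).trans h4
        have hmem : ∀ n ∈ N, (μ, k, n) ∈ A ×ˢ T ×ˢ N := fun n hn => by
          simp only [Finset.mem_product]; exact ⟨hμ, hk, hn⟩
        refine ⟨ν k, c, X * x₀, hν1 k hk, hν2 k hk,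
          (hν1 k hk).of_mul (hc ▸ (hA1 μ hμ).1.comp hLd), by simp,
          fun n => X * (x₀ + σ (μ, k, n)), fun n hn => ⟨by simp, ?_, ?_⟩, fun r hr => ?_⟩
        · apply mul_left_cancel₀ (hν1 k hk).ne_zero
          rw [← hc, ← h1 _ (hmem n hn)]
          ring
        · rw [hν3 k hk _ (hx₀.1.2 _ (hmem n hn)), mul_comm c, ← hc]
        · obtain ⟨a, b, π, h4, h5, h6, h7, h8, h9, h10⟩ := hν4 k hk r hr
          exact ⟨a, b, π, h4, h5, h6, h7, h8, h9, fun n hn => by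
            rw [h10 _ (hx₀.1.2 _ (hmem n hn)), mul_comm c, ← hc]⟩
      refine ⟨_, hV, insert (Φ (μ.comp (L * d), X * x₀)) T,
        by rw [Finset.card_insert_of_notMem hk, hT], fun k hk' => ?_⟩
      rcases Finset.mem_insert.1 hk' with rfl | hk'
      · refine ⟨μ.comp (L * d), (hA1 μ hμ).1.comp hLd, hc0 μ hμ, hsame μ hμ, fun r hr => ?_⟩
        obtain ⟨a, b, π, h4, h5, h6, h7, h8, h9⟩ := h3 r hr
        refine ⟨a.comp (L * d), b.comp (L * d), π.comp (L * d), h5.comp hLd, h6.comp hLd,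
          (hA1 π h4).1.comp hLd, hc0 π h4, ?_, ?_, fun x hx => (hsame π h4 x hx).trans h9⟩
        · rw [← add_comp, h7, mul_comp, C_comp]
        · rw [← mul_comp, h8, mul_comp, C_comp]
      · refine ⟨ν k, hν1 k hk', hν2 k hk', fun x hx => hν3 k hk' x hx.1.1, fun r hr => ?_⟩
        obtain ⟨a, b, π, h4, h5, h6, h7, h8, h9, h10⟩ := hν4 k hk' r hr
        exact ⟨a, b, π, h4, h5, h6, h7, h8, h9, fun x hx => h10 x hx.1.1⟩
  obtain ⟨B, -, T, hT, -⟩ := key (Fintype.card κ + 1)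
  have := Finset.card_le_univ T
  omega

/-- the configuration found at a node -/
def Conf {κ : Type} (Q N : Finset ℤ) (A : Finset (ℤ[X] × ℤ[X])) (Φ : ℤ[X] × ℤ[X] → κ) : Prop :=
  ∃ ν c τ', Pos c ∧ (c * ν, τ') ∈ A ∧
    ∃ τ : ℤ → ℤ[X], (∀ n ∈ N, (ν, τ n) ∈ A ∧ ν * C n * (τ n - τ') = c ∧
      Φ (ν, τ n) = Φ (c * ν, τ')) ∧
    ∀ r ∈ Q, ∃ a b π, Pos a ∧ Pos b ∧ a + b = C r * ν ∧ a * b = C r * π ∧
      ∀ n ∈ N, (π, τ n) ∈ A ∧ Φ (π, τ n) = Φ (c * ν, τ')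

theorem node (κ : Type) [Finite κ] (Q N : Finset ℤ) (hQ : ∀ r ∈ Q, 0 < r) (hN : ∀ n ∈ N, 0 < n) :
    ∃ A : Finset (ℤ[X] × ℤ[X]), (∀ e ∈ A, Pos e.1 ∧ e.1.coeff 0 = 0 ∧ e.2.coeff 0 = 0) ∧
      ∀ Φ : ℤ[X] × ℤ[X] → κ, Conf Q N A Φ := by
  classical
  obtain ⟨A, hA⟩ := window (κ := κ) (fun (A : Finset (ℤ[X] × ℤ[X])) Φ =>
    Conf Q N (A.filter fun e => Pos e.1 ∧ e.1.coeff 0 = 0 ∧ e.2.coeff 0 = 0) Φ) (by
      rintro A A' c c' hs hc ⟨ν, e, τ', h1, h2, τ, h3, h4⟩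
      have hs' := Finset.filter_subset_filter
        (fun e : ℤ[X] × ℤ[X] => Pos e.1 ∧ e.1.coeff 0 = 0 ∧ e.2.coeff 0 = 0) hs
      refine ⟨ν, e, τ', h1, hs' h2, τ, fun n hn => ⟨hs' (h3 n hn).1, (h3 n hn).2.1, ?_⟩,
        fun r hr => ?_⟩
      · rw [← hc _ (Finset.mem_filter.1 h2).1, ← hc _ (Finset.mem_filter.1 (h3 n hn).1).1]
        exact (h3 n hn).2.2
      · obtain ⟨a, b, π, h5, h6, h7, h8, h9⟩ := h4 r hr
        refine ⟨a, b, π, h5, h6, h7, h8, fun n hn => ⟨hs' (h9 n hn).1, ?_⟩⟩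
        rw [← hc _ (Finset.mem_filter.1 h2).1, ← hc _ (Finset.mem_filter.1 (h9 n hn).1).1]
        exact (h9 n hn).2) (by
      intro Φ
      obtain ⟨ν, c, τ', h1, h2, h3, h4, τ, h5, h6⟩ := node0 Φ Q N hQ hN
      choose! a b π h7 h8 h9 h10 h11 h12 h13 using h6
      refine ⟨insert (c * ν, τ') (N.image (fun n => (ν, τ n)) ∪
        (Q ×ˢ N).image fun z => (π z.1, τ z.2)), ν, c, τ', h3, Finset.mem_filter.2
          ⟨Finset.mem_insert_self _ _, h3.mul h1, by simp [h2], h4⟩, τ, fun n hn =>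
          ⟨Finset.mem_filter.2 ⟨Finset.mem_insert_of_mem (Finset.mem_union_left _
            (Finset.mem_image_of_mem _ hn)), h1, h2, (h5 n hn).1⟩, (h5 n hn).2⟩, fun r hr =>
          ⟨a r, b r, π r, h7 r hr, h8 r hr, h11 r hr, h12 r hr, fun n hn => ⟨Finset.mem_filter.2
            ⟨Finset.mem_insert_of_mem (Finset.mem_union_right _ (Finset.mem_image.2
              ⟨(r, n), Finset.mem_product.2 ⟨hr, hn⟩, rfl⟩)), h9 r hr, h10 r hr, (h5 n hn).1⟩,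
            h13 r hr n hn⟩⟩⟩)
  exact ⟨_, fun e he => (Finset.mem_filter.1 he).2, hA⟩

end Pool.Agent.H32Z.Bal
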